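import Pool.Agent.H581.RC.Fin2

/-!
Classification of the irreducible right alternative bimodules over the 2 by 2 matrices over a
field.
-/

namespace Pool.Agent.Results.MP_cf4f28_al.FullClassification

open Pool.Agent.H581.RA

universe u v w

theorem result (F : Type u) [Field F] :
    -- CHARACTERISTIC DIFFERENT FROM 2
    ((2 : F) ≠ 0 →
      -- five exceptional irreducible bimodules, of dimensions 1, 2, 2, 4, 6
      (∀ i : Fin 5, (exceptional F i).RightAlternative ∧ (exceptional F i).Irreducible ∧
        Module.finrank F (exceptional F i).carrier = (![1, 2, 2, 4, 6] : Fin 5 → ℕ) i) ∧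
      -- pairwise non-isomorphic
      (∀ i j : Fin 5, (exceptional F i).Isomorphic (exceptional F j) → i = j) ∧
      -- the bimodules attached to the data `Y`
      (∀ Y : Quad.{u, v} F, Y.bimodule.RightAlternative ∧
        (FiniteDimensional F Y.bimodule.carrier ↔ FiniteDimensional F Y.carrier) ∧
        (Y.Irreducible → Y.bimodule.Irreducible ∧
          ∀ i : Fin 5, ¬ Y.bimodule.Isomorphic (exceptional F i))) ∧
      -- they are isomorphic only if the data are
      (∀ (Y : Quad.{u, v} F) (Y' : Quad.{u, w} F), Y.Irreducible → Y'.Irreducible →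
        (Y.bimodule.Isomorphic Y'.bimodule ↔ Y.Isomorphic Y')) ∧
      -- completeness of the list
      (∀ M : Bimodule.{u, v} F, M.RightAlternative → M.Irreducible →
        (∃ i : Fin 5, M.Isomorphic (exceptional F i)) ∨
        ∃ Y : Quad.{u, v} F, Y.Irreducible ∧ M.Isomorphic Y.bimodule)) ∧
    -- CHARACTERISTIC 2
    (∀ h2 : (2 : F) = 0,
      -- the top of a tower over an irreducible `V` is irreducible, of dimension `2 ^ d * dim V`
      (∀ (V : HBimodule.{u, v} F (flag F 0)) (d : ℕ) (X : HBimodule.{u, v} F (flag F 4)),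
        V.Irreducible → Tower h2 V 4 d X →
        X.full.RightAlternative ∧ X.full.Irreducible ∧
          (FiniteDimensional F X.full.carrier ↔ FiniteDimensional F V.carrier) ∧
          Module.finrank F X.full.carrier = 2 ^ d * Module.finrank F V.carrier) ∧
      -- completeness of the list
      (∀ M : Bimodule.{u, v} F, M.RightAlternative → M.Irreducible →
        ∃ V : HBimodule.{u, v} F (flag F 0), V.Irreducible ∧
          ∃ (d : ℕ) (X : HBimodule.{u, v} F (flag F 4)), Tower h2 V 4 d X ∧
            M.Isomorphic X.full) ∧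
      -- `V` is determined up to isomorphism
      (∀ (V : HBimodule.{u, v} F (flag F 0)) (V' : HBimodule.{u, w} F (flag F 0)) (d d' : ℕ)
        (X : HBimodule.{u, v} F (flag F 4)) (X' : HBimodule.{u, w} F (flag F 4)),
        V.Irreducible → V'.Irreducible → Tower h2 V 4 d X → Tower h2 V' 4 d' X' →
        X.full.Isomorphic X'.full → V.Matches V') ∧
      -- above each `V` there are at least one and at most four, up to isomorphism
      (∀ V : HBimodule.{u, v} F (flag F 0), V.Irreducible →
        ∃ X : Fin 4 → HBimodule.{u, v} F (flag F 4), (∀ i, ∃ d, Tower h2 V 4 d (X i)) ∧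
          ∀ (d : ℕ) (X' : HBimodule.{u, v} F (flag F 4)), Tower h2 V 4 d X' →
            ∃ i, X'.full.Isomorphic (X i).full) ∧
      -- one step, if the right action does not extend: the double is the only class above `W`
      (∀ (k : Fin 4) (W : HBimodule.{u, v} F (flag F (k : ℕ))), W.RightAlternative →
        W.Irreducible → (∀ ρ, ¬ (flagStep h2 k).IsExtension W ρ) →
        ((flagStep h2 k).double W).RightAlternative ∧ ((flagStep h2 k).double W).Irreducible ∧
        ((flagStep h2 k).double W).LiesOver W ∧
        ∀ M : HBimodule.{u, w} F (flag F ((k : ℕ) + 1)), M.RightAlternative → M.Irreducible →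
          M.LiesOver W → M.Matches ((flagStep h2 k).double W)) ∧
      -- one step, if it extends by `ρ`: the extensions by `ρ` and `ρ + α` are the only classes
      (∀ (k : Fin 4) (W : HBimodule.{u, v} F (flag F (k : ℕ))), W.RightAlternative →
        W.Irreducible → ∀ (ρ : W.carrier → W.carrier) (hρ : IsLinearMap F ρ)
        (hρ' : IsLinearMap F ((flagStep h2 k).shift W ρ)), (flagStep h2 k).IsExtension W ρ →
        (flagStep h2 k).IsExtension W ((flagStep h2 k).shift W ρ) ∧
        ((flagStep h2 k).extend W ρ hρ).RightAlternative ∧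
        ((flagStep h2 k).extend W ρ hρ).Irreducible ∧
        ((flagStep h2 k).extend W ρ hρ).LiesOver W ∧
        (∀ M : HBimodule.{u, w} F (flag F ((k : ℕ) + 1)), M.RightAlternative →
          M.Irreducible → M.LiesOver W → M.Matches ((flagStep h2 k).extend W ρ hρ) ∨
            M.Matches ((flagStep h2 k).extend W ((flagStep h2 k).shift W ρ) hρ')) ∧
        -- when these two are isomorphic
        (((flagStep h2 k).extend W ρ hρ).Matches
            ((flagStep h2 k).extend W ((flagStep h2 k).shift W ρ) hρ') ↔
          ∃ θ : W.carrier → W.carrier, W.IsHom W θ ∧ (∃ m, θ m ≠ 0) ∧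
            ∀ m, θ (ρ m) + ρ (θ m) = stepScalar F k • θ m) ∧
        (IsAlgClosed F → FiniteDimensional F W.carrier → stepScalar F k ≠ 0 →
          ¬ ((flagStep h2 k).extend W ρ hρ).Matches
            ((flagStep h2 k).extend W ((flagStep h2 k).shift W ρ) hρ'))) ∧
      -- each `M` lies over some `W`, unique up to isomorphism
      (∀ (k : Fin 4) (M : HBimodule.{u, v} F (flag F ((k : ℕ) + 1))), M.RightAlternative →
        M.Irreducible →
        (∃ W : HBimodule.{u, v} F (flag F (k : ℕ)), W.RightAlternative ∧ W.Irreducible ∧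
          M.LiesOver W) ∧
        ∀ W W' : HBimodule.{u, v} F (flag F (k : ℕ)), W.Irreducible → W'.Irreducible →
          M.LiesOver W → M.LiesOver W' → W.Matches W')) := by
  refine ⟨fun h2 => ?_, fun h2 => ?_⟩
  · have h4 : (4 : F) ≠ 0 := by
      have : (4 : F) = 2 * 2 := by norm_num
      rw [this]; exact mul_ne_zero h2 h2
    simp only [rightAlternative_iff, bim_irreducible_iff, quad_irreducible_iff, isomorphic_iff,
      quad_isomorphic_iff, exceptional_eq, bimodule_eq]
    refine ⟨fun i => ⟨(five_good h2 i).1, (five_good h2 i).2, five_rank i⟩, five_ne, ?_, ?_, ?_⟩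
    · intro Y
      exact ⟨simple_ra Y, simple_finite Y,
        fun hY => ⟨simple_irr Y h4 hY, simple_not_five h2 Y hY⟩⟩
    · intro Y Y' hY hY'
      exact ⟨iso_of_simple_iso h4, simple_iso_of_iso h4 hY hY'⟩
    · intro M hRA hM
      rcases Bimodule.classify h2 hRA hM with h | h | h | h | h | h
      · exact Or.inl ⟨0, h⟩
      · exact Or.inl ⟨1, h⟩
      · exact Or.inl ⟨2, h⟩
      · exact Or.inl ⟨3, h⟩
      · exact Or.inl ⟨4, h⟩
      · exact Or.inr h
  · refine ⟨?_, complete h2, ?_, ?_, ?_, ?_, ?_⟩
    · intro V d X hV hX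
      have hg := hX.good h2 hV
      exact ⟨HBimodule.full_ra.mpr hg.1, HBimodule.full_irr.mpr hg.2, hX.finite h2, hX.rank h2⟩
    · intro V V' d d' X X' hV hV' hX hX' h
      exact unique_bottom h2 hV hV' hX hX' (HBimodule.full_iso.mp h)
    · intro V hV
      exact at_most_four h2 hV
    · intro k W hRA hW hno
      exact (flagStep h2 k).step_double h2 hRA hW hno
    · intro k W hRA hW ρ hρ hρ' h
      have h3 := (flagStep h2 k).step_extend h2 hRA hW h
      refine ⟨h3.2.2.2.1, h3.1, h3.2.1, h3.2.2.1, fun M => h3.2.2.2.2 hρ' M,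
        (flagStep h2 k).shift_iso h2 hW hρ hρ', fun hF hf h0 => ?_⟩
      exact two_classes h2 (flagStep h2 k) hW hf hρ hρ' h0
    · intro k M hRA hM
      refine ⟨(flagStep h2 k).exists_below' hRA hM, fun W W' hW hW' h h' => ?_⟩
      exact (flagStep h2 k).unique_below h2 hRA hM hW hW' h h'

end Pool.Agent.Results.MP_cf4f28_al.FullClassification
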